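import Pool.Agent.Lib.MP_6bc78b_nt.MS.GL.Iface

/-! Project MS, Part GL, row PTC: the number of zeros near `y` against the weight `WM`. -/

set_option autoImplicit false

open Complex Filter Topology MeasureTheory ArithmeticFunction

namespace Pool.Agent.Lib.MP_6bc78b_nt.MS.GL.H97

open Pool.Agent.Lib.MP_6bc78b_nt Pool.Agent.Lib.MP_6bc78b_nt.LL Pool.Agent.Lib.MP_6bc78b_nt.MS
  Pool.Agent.Lib.MP_6bc78b_nt.MS.P1 Pool.Agent.Lib.MP_6bc78b_nt.MS.QZ
  Pool.Agent.Lib.MP_6bc78b_nt.MS.GL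

theorem tent_ne {l u : ℝ} (hl : 0 < l) (hu : u ≠ 0) :
    ∫ ξ in (0 : ℝ)..l, (1 - ξ / l) * Real.cos (ξ * u) =
      (1 - Real.cos (l * u)) / (l * u ^ 2) := by
  have h : ∀ ξ ∈ Set.uIcc (0 : ℝ) l, HasDerivAt (fun ξ => (1 - ξ / l) * (Real.sin (ξ * u) / u) -
      Real.cos (ξ * u) / (l * u ^ 2)) ((1 - ξ / l) * Real.cos (ξ * u)) ξ := by
    intro ξ _
    have h1 : HasDerivAt (fun ξ : ℝ => 1 - ξ / l) (-(1 / l)) ξ := by
      simpa using ((hasDerivAt_id ξ).div_const l).const_sub 1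
    have h0 : HasDerivAt (fun ξ : ℝ => ξ * u) u ξ := by
      simpa using (hasDerivAt_id ξ).mul_const u
    have h2 : HasDerivAt (fun ξ : ℝ => Real.sin (ξ * u) / u) (Real.cos (ξ * u)) ξ := by
      have := (h0.sin).div_const u
      rw [mul_div_assoc, div_self hu, mul_one] at this
      exact this
    have h3 : HasDerivAt (fun ξ : ℝ => Real.cos (ξ * u) / (l * u ^ 2))
        (-Real.sin (ξ * u) * u / (l * u ^ 2)) ξ := (h0.cos).div_const _
    have h4 := (h1.mul h2).sub h3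
    have h5 : (1 - ξ / l) * Real.cos (ξ * u) = -(1 / l) * (Real.sin (ξ * u) / u) +
        (1 - ξ / l) * Real.cos (ξ * u) - -Real.sin (ξ * u) * u / (l * u ^ 2) := by
      have h6 : -Real.sin (ξ * u) * u / (l * u ^ 2) = -(1 / l) * (Real.sin (ξ * u) / u) := by
        field_simp
      rw [h6]
      ring
    rw [h5]
    exact h4
  rw [intervalIntegral.integral_eq_sub_of_hasDerivAt h
    (Continuous.intervalIntegrable (by fun_prop) _ _)]
  rw [zero_mul, Real.sin_zero, Real.cos_zero, div_self hl.ne']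
  ring

theorem tent_zero {l : ℝ} (hl : 0 < l) :
    ∫ ξ in (0 : ℝ)..l, (1 - ξ / l) * Real.cos (ξ * 0) = l / 2 := by
  have h : ∀ ξ ∈ Set.uIcc (0 : ℝ) l, HasDerivAt (fun ξ => ξ - ξ ^ 2 / (2 * l))
      ((1 - ξ / l) * Real.cos (ξ * 0)) ξ := by
    intro ξ _
    have h1 := (hasDerivAt_id ξ).sub (((hasDerivAt_id ξ).pow 2).div_const (2 * l))
    have h5 : (1 - ξ / l) * Real.cos (ξ * 0) = 1 - ((2 : ℕ) : ℝ) * (id ξ) ^ (2 - 1) * 1 / (2 * l) := by
      rw [mul_zero, Real.cos_zero, mul_one]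
      simp only [id_eq]
      push_cast
      field_simp
    rw [h5]
    exact h1
  rw [intervalIntegral.integral_eq_sub_of_hasDerivAt h
    (Continuous.intervalIntegrable (by fun_prop) _ _)]
  field_simp
  ring

theorem tent_nonneg {l : ℝ} (hl : 0 < l) (u : ℝ) :
    0 ≤ ∫ ξ in (0 : ℝ)..l, (1 - ξ / l) * Real.cos (ξ * u) := by
  rcases eq_or_ne u 0 with rfl | hu
  · rw [tent_zero hl]
    positivity
  · rw [tent_ne hl hu]
    have := Real.cos_le_one (l * u)
    apply div_nonneg (by linarith)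
    positivity

theorem tent_lower {l u c : ℝ} (hl : 0 < l) (hc : c ≤ 1) (hu : l * |u| ≤ c) :
    l / 2 * (1 - c ^ 2) ≤ ∫ ξ in (0 : ℝ)..l, (1 - ξ / l) * Real.cos (ξ * u) := by
  have hc0 : 0 ≤ c := le_trans (by positivity) hu
  rcases eq_or_ne u 0 with rfl | hu0
  · rw [tent_zero hl]
    nlinarith [sq_nonneg c]
  · rw [tent_ne hl hu0]
    set x := l * u with hx
    have hx1 : |x| ≤ c := by
      rw [hx, abs_mul, abs_of_pos hl]
      exact hu
    have hxne : x ≠ 0 := mul_ne_zero hl.ne' hu0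
    have hx2 : x ^ 2 ≤ c ^ 2 := by
      rw [← sq_abs x]
      exact pow_le_pow_left₀ (abs_nonneg x) hx1 2
    have hb := Real.cos_bound (x := x) (hx1.trans hc)
    have hb1 := (abs_le.mp hb).2
    have hx4 : |x| ^ 4 = x ^ 2 * x ^ 2 := by
      have : |x| ^ 4 = (|x| ^ 2) ^ 2 := by ring
      rw [this, sq_abs]
      ring
    rw [hx4] at hb1
    have hl2 : l * u ^ 2 = x ^ 2 / l := by
      rw [hx]
      field_simp
    rw [hl2, le_div_iff₀ (by positivity)]
    have hxp : 0 < x ^ 2 := by positivity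
    have e1 : l / 2 * (1 - c ^ 2) * (x ^ 2 / l) = x ^ 2 / 2 * (1 - c ^ 2) := by
      field_simp
    rw [e1]
    nlinarith [mul_nonneg hxp.le (sub_nonneg.mpr hx2), mul_nonneg hxp.le hxp.le]

theorem isPhi_tent {l : ℝ} (hl : 1 ≤ l) : IsPhi l 1 (fun ξ => 1 - ξ / l) := by
  have hl0 : 0 < l := by linarith
  have hd : deriv (fun ξ : ℝ => 1 - ξ / l) = fun _ => -(1 / l) := by
    funext ξ
    have h1 : HasDerivAt (fun ξ : ℝ => 1 - ξ / l) (-(1 / l)) ξ := by
      simpa using ((hasDerivAt_id ξ).div_const l).const_sub 1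
    exact h1.deriv
  refine ⟨by fun_prop, by simp [hl0.ne'], ?_⟩
  intro ξ h0 h1
  have h2 : 0 ≤ ξ / l := by positivity
  have h3 : ξ / l ≤ 1 := (div_le_one hl0).mpr h1
  have h4 : 1 / l ≤ 1 := (div_le_one hl0).mpr hl
  have h5 : 0 ≤ 1 / l := by positivity
  refine ⟨abs_le.mpr ⟨by linarith, by linarith⟩, ?_, ?_⟩
  · rw [hd]
    exact abs_le.mpr ⟨by linarith, by linarith⟩
  · rw [hd]
    simp

theorem QP_tent {T lam : ℝ} (hT : 0 < T) (y : ℝ) (hl : lam * Real.log T ≠ 0) :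
    QP (fun ξ => 1 - ξ / (lam * Real.log T)) lam T y =
      ((lam * Real.log T : ℝ) : ℂ) * BB lam T (1 / 2 + y * I) := by
  unfold QP BB dpoly
  rw [Finset.mul_sum]
  apply Finset.sum_congr rfl
  intro n hn
  rw [← mul_assoc]
  congr 1
  have hn1 : (n : ℝ) ≤ T ^ lam := by
    have := (Finset.mem_Icc.mp hn).2
    exact (Nat.le_floor_iff (Real.rpow_nonneg hT.le _)).mp this
  have hb : (bb lam T) n = ArithmeticFunction.vonMangoldt n * (1 - Real.log n / (lam * Real.log T)) /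
      (lam * Real.log T) := by
    show bbf lam T n = _
    rw [bbf, if_pos hn1]
  rw [hb, ← Complex.ofReal_mul]
  congr 1
  rw [mul_div_assoc', mul_div_cancel_left₀ _ hl]

/-- Row PTC. -/
theorem ptc (h1 : ExgStatement) : PtcStatement := by
  intro δ0 hδ hδ1
  obtain ⟨C, hC, hE⟩ := h1 δ0 hδ hδ1
  refine ⟨2 * C + Real.log 2, by positivity, ?_⟩
  intro T lam c y hT hl hlam hc0 hc1 hy1 hy2
  have hT0 : 0 < T := by linarith
  have hlogT : 0 < Real.log T := Real.log_pos (by linarith)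
  set l := lam * Real.log T with hldef
  have hl0 : 0 < l := by linarith
  have hlam0 : 0 < lam := by
    by_contra hcon
    have : lam * Real.log T ≤ 0 := mul_nonpos_of_nonpos_of_nonneg (not_lt.mp hcon) hlogT.le
    linarith
  obtain ⟨hS, hB⟩ := hE T lam 1 y (fun ξ => 1 - ξ / l) hT hl hlam hy1 hy2 (isPhi_tent hl)
  set k : ℝ → ℝ := fun γ => ∫ ξ in (0 : ℝ)..l, (1 - ξ / l) * Real.cos (ξ * (y - γ)) with hk
  have hk0 : ∀ γ, 0 ≤ k γ := fun γ => tent_nonneg hl0 _
  have hf0 : ∀ γ, 0 ≤ (mz γ : ℝ) * k γ := fun γ => mul_nonneg (Nat.cast_nonneg _) (hk0 γ)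
  have hSum : Summable (fun γ : ℝ => (mz γ : ℝ) * k γ) := hS
  -- the lower bound for the sum
  have hlow : l / 2 * (1 - c ^ 2) * nC c T y ≤ ∑' γ : ℝ, (mz γ : ℝ) * k γ := by
    have h0 : 0 ≤ ∑' γ : ℝ, (mz γ : ℝ) * k γ := tsum_nonneg hf0
    have hc2 : 0 ≤ 1 - c ^ 2 := by nlinarith
    unfold nC
    by_cases hfin : ((fun γ : ℝ => ∑ᶠ (_ : γ ∈ {γ : ℝ | |γ - y| ≤ c / Real.log T}), (mz γ : ℝ))
        |>.support).Finite
    · rw [finsum_eq_sum_of_support_subset _ (s := hfin.toFinset) (by simp)]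
      calc l / 2 * (1 - c ^ 2) * ∑ γ ∈ hfin.toFinset,
            ∑ᶠ (_ : γ ∈ {γ : ℝ | |γ - y| ≤ c / Real.log T}), (mz γ : ℝ)
          ≤ ∑ γ ∈ hfin.toFinset, (mz γ : ℝ) * k γ := by
            rw [Finset.mul_sum]
            apply Finset.sum_le_sum
            intro γ _
            by_cases hγ : γ ∈ {γ : ℝ | |γ - y| ≤ c / Real.log T}
            · rw [finsum_eq_if, if_pos hγ]
              have h2 : l * |y - γ| ≤ c := by
                have h3 : |y - γ| ≤ c / Real.log T := by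
                  rw [abs_sub_comm]
                  exact hγ
                have h4 : l ≤ Real.log T := by
                  rw [hldef]
                  nlinarith
                calc l * |y - γ| ≤ Real.log T * (c / Real.log T) :=
                      mul_le_mul h4 h3 (abs_nonneg _) hlogT.le
                  _ = c := by field_simp
              have h5 := tent_lower hl0 hc1 h2
              have h6 : l / 2 * (1 - c ^ 2) ≤ k γ := h5
              have h7 : (0 : ℝ) ≤ (mz γ : ℝ) := Nat.cast_nonneg _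
              nlinarith
            · rw [finsum_eq_if, if_neg hγ, mul_zero]
              exact hf0 γ
        _ ≤ ∑' γ : ℝ, (mz γ : ℝ) * k γ := hSum.sum_le_tsum _ (fun γ _ => hf0 γ)
    · have : (∑ᶠ γ ∈ {γ : ℝ | |γ - y| ≤ c / Real.log T}, (mz γ : ℝ)) = 0 :=
        finsum_of_infinite_support hfin
      rw [this, mul_zero]
      exact h0
  have hB' := (abs_le.mp hB).2
  have hQ : (QP (fun ξ => 1 - ξ / l) lam T y).re = l * (BB lam T (1 / 2 + y * I)).re := by
    rw [hldef, QP_tent hT0 y (by rw [← hldef]; exact hl0.ne'), Complex.re_ofReal_mul]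
  rw [hQ] at hB'
  have hup : ∑' γ : ℝ, (mz γ : ℝ) * k γ ≤
      1 / 2 * Real.log y - l * (BB lam T (1 / 2 + y * I)).re + C := by
    have h8 : (∑' γ : ℝ, (mz γ : ℝ) * k γ) - 1 / 2 * Real.log y * (1 - 0 / l) +
      l * (BB lam T (1 / 2 + y * I)).re ≤ C * 1 := hB'
    rw [zero_div, sub_zero, mul_one, mul_one] at h8
    linarith
  have hlogy : Real.log y ≤ Real.log 2 + Real.log T := by
    rw [← Real.log_mul (by norm_num) hT0.ne']
    exact Real.log_le_log (by linarith) hy2.le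
  have hall : l / 2 * ((1 - c ^ 2) * nC c T y) ≤
      1 / 2 * (Real.log 2 + Real.log T) - l * (BB lam T (1 / 2 + y * I)).re + C := by
    nlinarith
  unfold WM
  rw [← hldef]
  have hfin : l / 2 * (1 / lam - 2 * (BB lam T (1 / 2 + y * I)).re + (2 * C + Real.log 2) / l) =
      1 / 2 * (Real.log 2 + Real.log T) - l * (BB lam T (1 / 2 + y * I)).re + C := by
    have e1 : l / 2 * (1 / lam) = Real.log T / 2 := by
      rw [hldef]
      field_simp
    have e2 : l / 2 * ((2 * C + Real.log 2) / l) = (2 * C + Real.log 2) / 2 := by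
      field_simp
    calc l / 2 * (1 / lam - 2 * (BB lam T (1 / 2 + y * I)).re + (2 * C + Real.log 2) / l)
        = l / 2 * (1 / lam) - l * (BB lam T (1 / 2 + y * I)).re +
          l / 2 * ((2 * C + Real.log 2) / l) := by ring
      _ = _ := by rw [e1, e2]; ring
  rw [← hfin] at hall
  exact le_of_mul_le_mul_left hall (by positivity)

end Pool.Agent.Lib.MP_6bc78b_nt.MS.GL.H97
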